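import Pool.Agent.H100R3.Iso.Fin

set_option autoImplicit false

namespace Pool.Agent.Results.MP_5b0138_an.FinitelyManyEigenvalues

open MeasureTheory H100R3.Iso

/-- No finite set of Dirichlet eigenvalues, even together with the area, determines a convex
polygon up to congruence: for every `N` and every choice of `N` indices `κ 1, ..., κ N` there are
two non-congruent convex polygons with at most `N + 5` vertices, the same area and the same
Dirichlet eigenvalues `λ_(κ i)`. -/
theorem result (N : ℕ) (κ : Fin N → ℕ) :
    ∃ P Q : Set E2, IsConvexPolygon (N + 5) P ∧ IsConvexPolygon (N + 5) Q ∧ ¬ Congruent P Q ∧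
      volume P = volume Q ∧ ∀ i, lam P (κ i) = lam Q (κ i) :=
  final N κ

end Pool.Agent.Results.MP_5b0138_an.FinitelyManyEigenvalues
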