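import Pool.Agent.H100R3.Iso.SmoothB

set_option autoImplicit false

namespace Pool.Agent.Results.MP_5b0138_an.FinitelyManySmooth

open MeasureTheory H100R3.Iso

/-- No finite set of Dirichlet eigenvalues, even together with the area, determines a planar domain
with real-analytic boundary up to congruence, not even among the star-shaped domains with two
orthogonal axes of symmetry. -/
theorem result (N : ℕ) (κ : Fin N → ℕ) :
    ∃ P Q : Set E2, IsSmoothDomain P ∧ IsSmoothDomain Q ∧ StarConvex ℝ 0 P ∧ StarConvex ℝ 0 Q ∧
      TwoAxes P ∧ TwoAxes Q ∧ ¬ Congruent P Q ∧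
      volume P = volume Q ∧ ∀ i, lam P (κ i) = lam Q (κ i) :=
  final' N κ

end Pool.Agent.Results.MP_5b0138_an.FinitelyManySmooth
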